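import Mathlib
import Pool.Agent.H.MP_060e4f_an.A

set_option autoImplicit false
open Filter Topology Complex

namespace Pool.Agent.Results.MP_060e4f_an.Translate

/-- holomorphic of bounded type and of nonpositive mean type in the upper half-plane -/
def Adm (f : ℂ → ℂ) : Prop :=
  DifferentiableOn ℂ f {z | 0 < z.im} ∧
  (∃ (g h : ℂ → ℂ) (M : ℝ), DifferentiableOn ℂ g {z | 0 < z.im} ∧
    DifferentiableOn ℂ h {z | 0 < z.im} ∧ (∃ z : ℂ, 0 < z.im ∧ h z ≠ 0) ∧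
    ∀ z : ℂ, 0 < z.im → ‖g z‖ ≤ M ∧ ‖h z‖ ≤ M ∧ f z * h z = g z) ∧
  ∀ ε : ℝ, 0 < ε → ∀ᶠ y : ℝ in atTop, ‖f (y * I)‖ ≤ Real.exp (ε * y)

/-- membership in the de Branges space of E -/
def Mem (E F : ℂ → ℂ) : Prop :=
  Differentiable ℂ F ∧ MeasureTheory.Integrable (fun t : ℝ => ‖F t / E t‖ ^ 2) ∧
  Adm (fun z => F z / E z) ∧ Adm (fun z => starRingEnd ℂ (F (starRingEnd ℂ z)) / E z)

lemma adm (f : ℂ → ℂ) (hd : DifferentiableOn ℂ f {z | 0 < z.im})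
    (h : ∀ z : ℂ, 0 < z.im → ‖f z‖ ≤ 1) : Adm f := by
  refine ⟨hd, ⟨f, fun _ => 1, 1, hd, differentiableOn_const _, ⟨I, by simp, by simp⟩,
    fun z hz => ⟨h z hz, by simp, by simp⟩⟩, fun ε hε => ?_⟩
  filter_upwards [eventually_gt_atTop 0] with y hy
  exact (h _ (by simpa using hy)).trans (Real.one_le_exp (by positivity))

open Pool.Agent.H.MP_060e4f_an in
theorem result : ∃ E : ℂ → ℂ, Differentiable ℂ E ∧
    (∀ z : ℂ, 0 < z.im → ‖E (starRingEnd ℂ z)‖ < ‖E z‖) ∧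
    (∃ A B : ℝ, ∀ z : ℂ, ‖E z‖ ≤ A * Real.exp (B * ‖z‖)) ∧
    (∀ t : ℝ, E t ≠ 0) ∧
    (∀ x : ℝ, ∃ C : ℝ, ∀ t : ℝ, ‖E (t + x) / E t‖ ≤ C) ∧
    ∃ (F : ℂ → ℂ) (z : ℂ), Mem E F ∧ ¬ Mem E (fun ζ => F (ζ + z)) := by
  refine ⟨E, E_diff, E_hb, ⟨1, 3, E_exp⟩, fun t => E_ne t (by simp), E_shift, F, 2 * I,
    ⟨F_diff, F_int, adm _ ?_ ?_, adm _ ?_ ?_⟩, fun h => F_nint h.2.1⟩
  · exact F_diff.differentiableOn.div E_diff.differentiableOn fun z hz => E_ne z (le_of_lt hz)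
  · intro z hz
    rw [norm_div]
    exact div_le_one_of_le₀ (E_ge z hz.le) (norm_nonneg _)
  · refine DifferentiableOn.div ?_ E_diff.differentiableOn fun z hz => E_ne z (le_of_lt hz)
    intro z _
    have := (F_diff (starRingEnd ℂ z)).conj_conj
    rw [Complex.conj_conj] at this
    exact this.differentiableWithinAt
  · intro z hz
    rw [norm_div, Complex.norm_conj]
    exact div_le_one_of_le₀ ((F_conj z hz.le).trans (E_ge z hz.le)) (norm_nonneg _)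

end Pool.Agent.Results.MP_060e4f_an.Translate
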